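import Pool.Agent.Helper22.G4.Base
import Pool.Agent.Helper22.G4.GenFam
import Pool.Agent.Helper22.G4.St.C0
import Pool.Agent.Helper22.G4.St.S1
import Pool.Agent.Helper22.G4.St.S3
import Pool.Agent.Helper22.G4.St.C13

/-! # G4-S7: the gadgets -/

namespace Pool.Agent.Helper66.G4

open Submodule Pool.Agent.Helper22.G4

/-- the vertices of the free facet `T0` -/
theorem t0_set {I : NF} (hI : I.OK) {g : ℕ} (hp : Vx.p g ∈ I.data.verts)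
    (hq : Vx.q g ∈ I.data.verts) :
    {a | a ∈ I.data.verts ∧ I.data.mem (Fc.T0 I.M I.N g) a} =
      ({Vx.b1, Vx.b2, Vx.p g, Vx.q g} : Set Vx) := by
  have hm : ∀ a, I.data.mem (Fc.T0 I.M I.N g) a = Fc.mem (Fc.T0 I.M I.N g) a := fun a => rfl
  ext a
  simp only [Set.mem_ofPred_eq, hm, Set.mem_insert_iff, Set.mem_singleton_iff]
  constructor
  · rintro ⟨ha, hf⟩
    rcases NF.verts_cases ha with h | h | ⟨b, i, j, hu, rfl⟩ | ⟨g', -, rfl⟩ | ⟨g', -, rfl⟩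
    · exact Or.inl h
    · exact Or.inr (Or.inl h)
    · exfalso
      rw [Fc.mem_u] at hf
      have := (NF.pu_lt hI hu).2.2
      simp only [Fc.T0] at hf
      omega
    · rw [Fc.mem_p] at hf
      simp only [Fc.T0] at hf
      have : g = g' := by omega
      subst this
      exact Or.inr (Or.inr (Or.inl rfl))
    · rw [Fc.mem_q] at hf
      simp only [Fc.T0] at hf
      have : g = g' := by omega
      subst this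
      exact Or.inr (Or.inr (Or.inr rfl))
  · rintro (rfl | rfl | rfl | rfl)
    · exact ⟨NF.b_mem.1, by rw [Fc.mem_b1]; rfl⟩
    · exact ⟨NF.b_mem.2, by rw [Fc.mem_b2]; rfl⟩
    · exact ⟨hp, by rw [Fc.mem_p]; rfl⟩
    · exact ⟨hq, by rw [Fc.mem_q]; rfl⟩

/-- one pair of quadrangles of a gadget -/
theorem gad {I : NF} (hI : I.OK) {c : Vx → E5} (hM : I.data.Model c) {τ : E5 →ₗ[ℝ] ℝ}
    (h1 : τ (c Vx.b1) = 0) (h2 : τ (c Vx.b2) = 0)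
    (hp : ∀ v ∈ I.data.verts, v ≠ Vx.b1 → v ≠ Vx.b2 → 0 < τ (c v))
    (n : Vx → E5) (hn : ∀ v, n v = (τ (c v))⁻¹ • c v) {g a b i j k l i' j' k' l' : ℕ}
    {RX RY R1 R2 : Flat Vx Fc} (hRX : RX ∈ I.data.flats) (hRY : RY ∈ I.data.flats)
    (hR1 : R1 ∈ I.data.flats) (hR2 : R2 ∈ I.data.flats)
    (hfree : I.data.Free (Fc.T0 I.M I.N g)) (hX1 : Vx.b1 ∈ RX.1) (hX2 : Vx.b2 ∈ RX.1)
    (hY1 : Vx.b1 ∈ RY.1) (hY2 : Vx.b2 ∈ RY.1)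
    (hx1 : Vx.u a i j ∈ RX.1) (hx2 : Vx.u a i' j' ∈ RX.1)
    (hy1 : Vx.u b k l ∈ RY.1) (hy2 : Vx.u b k' l' ∈ RY.1) (hy : Vx.u b k l ∉ RX.1)
    (hx12 : Vx.u a i j ≠ Vx.u a i' j') (hy12 : Vx.u b k l ≠ Vx.u b k' l')
    (_ha : a ≤ I.M)
    (h1p : Vx.p g ∈ R1.1) (h1q : Vx.q g ∈ R1.1) (h1x : Vx.u a i j ∈ R1.1)
    (h1y : Vx.u b k l ∈ R1.1) (h2p : Vx.p g ∈ R2.1) (h2q : Vx.q g ∈ R2.1)
    (h2x : Vx.u a i' j' ∈ R2.1) (h2y : Vx.u b k' l' ∈ R2.1) :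
    ∃ r : ℝ, r ≠ 0 ∧ n (Vx.u a i' j') - n (Vx.u a i j) =
      r • (n (Vx.u b k' l') - n (Vx.u b k l)) := by
  have hsub : ∀ R ∈ I.data.flats, ∀ v ∈ R.1, v ∈ I.data.verts := by
    intro R hR v hv
    have := (hM.flat R hR).1 (show v ∈ {a | a ∈ R.1} from hv)
    simpa using this
  have ub1 : ∀ a i j, Vx.u a i j ≠ Vx.b1 := by
    intro a i j h; simp [Vx.u, Vx.b1] at h
  have ub2 : ∀ a i j, Vx.u a i j ≠ Vx.b2 := by
    intro a i j h; simp [Vx.u, Vx.b2] at h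
  have hpos : ∀ R ∈ I.data.flats, ∀ a i j, Vx.u a i j ∈ R.1 → 0 < τ (c (Vx.u a i j)) :=
    fun R hR a i j h => hp _ (hsub R hR _ h) (ub1 _ _ _) (ub2 _ _ _)
  have hone : ∀ R ∈ I.data.flats, ∀ a i j, Vx.u a i j ∈ R.1 → τ (n (Vx.u a i j)) = 1 := by
    intro R hR a i j h
    rw [hn, map_smul, smul_eq_mul, inv_mul_cancel₀ (hpos R hR a i j h).ne']
  have hne : ∀ u v : Vx, u ∈ I.data.verts → v ∈ I.data.verts → u ≠ v → 0 < τ (c u) →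
      0 < τ (c v) → n u ≠ n v := by
    intro u v hu hv huv h0 h0' he
    have hli := conf_pair hM.conf (u := u) (v := v) (by simpa using hu) (by simpa using hv) huv
    rw [LinearIndependent.pair_iff] at hli
    have := hli (τ (c u))⁻¹ (-(τ (c v))⁻¹) (by
      rw [neg_smul, ← hn, ← hn, he]; simp)
    exact (inv_ne_zero h0.ne') this.1
  obtain ⟨-, f, hf0, hf⟩ := hM.flat RX hRX
  have hT := t0_set hI (hsub _ hR1 _ h1p) (hsub _ hR1 _ h1q)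
  obtain ⟨-, e, he0, he⟩ := hM.free _ hfree
  have hrk := hM.free4 _ hfree
  rw [hT] at he hrk
  have hspan : ∀ R ∈ I.data.flats, ∀ a i j b k l, Vx.p g ∈ R.1 → Vx.q g ∈ R.1 →
      Vx.u a i j ∈ R.1 → Vx.u b k l ∈ R.1 → Module.finrank ℝ (span ℝ ({c (Vx.p g), c (Vx.q g),
        n (Vx.u a i j), n (Vx.u b k l)} : Set E5)) ≤ 3 := by
    intro R hR a i j b k l hp' hq' hx hy
    have hr := hM.rank R hR
    rw [rk] at hr
    rw [← hr]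
    apply Submodule.finrank_mono
    rw [span_le]
    rintro x (rfl | rfl | rfl | rfl)
    · exact subset_span ⟨_, hp', rfl⟩
    · exact subset_span ⟨_, hq', rfl⟩
    · rw [SetLike.mem_coe, hn]
      exact smul_mem _ _ (subset_span ⟨_, hx, rfl⟩)
    · rw [SetLike.mem_coe, hn]
      exact smul_mem _ _ (subset_span ⟨_, hy, rfl⟩)
  have hfz : ∀ v ∈ RX.1, f (c v) = 0 := fun v hv => (hf v (by simpa using hsub _ hRX _ hv)).2 hv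
  have hez : ∀ v ∈ ({Vx.b1, Vx.b2, Vx.p g, Vx.q g} : Set Vx), v ∈ I.data.verts →
      e (c v) = 0 := fun v hv hv' => (he v (by simpa using hv')).2 hv
  refine gadget_parallel (b₁ := c Vx.b1) (b₂ := c Vx.b2) (p := c (Vx.p g)) (q := c (Vx.q g))
    (τ := τ) (f := f) (g := e) h1 h2 (hone _ hRX _ _ _ hx1) (hone _ hRX _ _ _ hx2)
    (hone _ hRY _ _ _ hy1) (hone _ hRY _ _ _ hy2) ?_ ?_
    (hne _ _ (hsub _ hRX _ hx1) (hsub _ hRX _ hx2) hx12 (hpos _ hRX _ _ _ hx1)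
      (hpos _ hRX _ _ _ hx2))
    (hne _ _ (hsub _ hRY _ hy1) (hsub _ hRY _ hy2) hy12 (hpos _ hRY _ _ _ hy1)
      (hpos _ hRY _ _ _ hy2)) (hfz _ hX1) (hfz _ hX2) ?_ ?_
    (hez _ (by simp) NF.b_mem.1) (hez _ (by simp) NF.b_mem.2)
    (hez _ (by simp) (hsub _ hR1 _ h1p)) (hez _ (by simp) (hsub _ hR1 _ h1q)) ?_ ?_
    (hspan _ hR1 _ _ _ _ _ _ h1p h1q h1x h1y) (hspan _ hR2 _ _ _ _ _ _ h2p h2q h2x h2y)
  · rw [hn, hn]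
    exact snd_page hI hM h1 h2 hp hRX hX1 hX2 hx2 hx1 (ub1 _ _ _) (ub2 _ _ _) (ub1 _ _ _)
      (ub2 _ _ _)
  · rw [hn, hn]
    exact snd_page hI hM h1 h2 hp hRY hY1 hY2 hy2 hy1 (ub1 _ _ _) (ub2 _ _ _) (ub1 _ _ _)
      (ub2 _ _ _)
  · rw [hn, map_smul, hfz _ hx1, smul_zero]
  · rw [hn, map_smul, smul_eq_mul]
    refine mul_ne_zero (inv_ne_zero (hpos _ hRY _ _ _ hy1).ne') fun h0 => hy ?_
    exact (hf _ (by simpa using hsub _ hRY _ hy1)).1 h0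
  · rw [hn, map_smul, smul_eq_mul]
    refine mul_ne_zero (inv_ne_zero (hpos _ hRX _ _ _ hx1).ne') fun h0 => ?_
    have := (he _ (by simpa using hsub _ hRX _ hx1)).1 h0
    simp [Vx.u, Vx.b1, Vx.b2, Vx.p, Vx.q] at this
  · rw [rk, Set.image_insert_eq, Set.image_insert_eq, Set.image_insert_eq,
      Set.image_singleton] at hrk
    exact hrk

/-- G4-S7 (the gadgets). `n v` is the normalised vector of `v`. -/
theorem snd_gadgets {I : NF} (hI : I.OK) {c : Vx → E5} (hM : I.data.Model c) {τ : E5 →ₗ[ℝ] ℝ}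
    (h1 : τ (c Vx.b1) = 0) (h2 : τ (c Vx.b2) = 0)
    (hp : ∀ v ∈ I.data.verts, v ≠ Vx.b1 → v ≠ Vx.b2 → 0 < τ (c v)) {d : OpD} (hd : d ∈ I.opds)
    (n : Vx → E5) (hn : ∀ v, n v = (τ (c v))⁻¹ • c v) :
    (∃ r : ℝ, r ≠ 0 ∧ n (Vx.u d.pb d.i d.x) - n (Vx.u d.pb 0 d.y) =
      r • (n (Vx.u d.pa d.z d.x) - n (Vx.u d.pa 0 d.z))) ∧
    (∃ r : ℝ, r ≠ 0 ∧ n (Vx.u d.pb d.x I.N) - n (Vx.u d.pb d.y d.i) =
      r • (n (Vx.u d.pc d.v I.N) - n (Vx.u d.pc d.y d.v))) ∧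
    (∃ r : ℝ, r ≠ 0 ∧ n (Vx.u d.pb d.x I.N) - n (Vx.u d.pb 0 d.y) =
      r • (n (Vx.u d.pc d.v I.N) - n (Vx.u d.pc 0 d.y))) ∧
    ∃ r : ℝ, r ≠ 0 ∧ n (Vx.u d.pc d.v I.N) - n (Vx.u d.pc 0 d.y) =
      r • (n (Vx.u d.pd d.w I.N) - n (Vx.u d.pd 0 d.w)) := by
  obtain ⟨hM4, hy, hyz, hzi, hiw, hwv, hvx, hxN, -⟩ := NF.opd_ok hI hd
  have hfl : ∀ R ∈ OpD.flats I.M I.N d, R ∈ I.data.flats := fun R hR =>
    NF.mem_flats.2 (Or.inr ⟨d, hd, hR⟩)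
  have hgb : ∀ a, Vx.u a = fun i j => (0, a, i, j) := fun a => rfl
  have e1 : d.pa = 4 * d.n + 1 := rfl
  have e2 : d.pb = 4 * d.n + 2 := rfl
  have e3 : d.pc = 4 * d.n + 3 := rfl
  have e4 : d.pd = 4 * d.n + 4 := rfl
  have hfA : ([Vx.b1, Vx.u d.pa d.x I.N, Vx.u d.pa d.z d.x, Vx.u d.pa 0 d.z, Vx.b2],
      Fc.Q I.N (d.pa - 1) d.pa, Fc.GY I.N d.pa d.g0) ∈ I.data.flats :=
    hfl _ (by simp [OpD.flats])
  have hfB : ([Vx.b2, Vx.u d.pb 0 d.y, Vx.u d.pb d.y d.i, Vx.u d.pb d.i d.x, Vx.u d.pb d.x I.N,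
      Vx.b1], Fc.GX I.N d.pb d.g0, Fc.GX I.N d.pb d.g1) ∈ I.data.flats :=
    hfl _ (by simp [OpD.flats])
  have hfC : ([Vx.b1, Vx.u d.pc d.v I.N, Vx.u d.pc d.y d.v, Vx.u d.pc 0 d.y, Vx.b2],
      Fc.GY I.N d.pc d.g1, Fc.GX I.N d.pc d.g2) ∈ I.data.flats :=
    hfl _ (by simp [OpD.flats])
  have hfD : ([Vx.b2, Vx.u d.pd 0 d.w, Vx.u d.pd d.w I.N, Vx.b1],
      Fc.GY I.N d.pd d.g2, Fc.Q I.N d.pd (d.nxt I.M)) ∈ I.data.flats :=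
    hfl _ (by simp [OpD.flats])
  refine ⟨?_, ?_, ?_, ?_⟩
  · refine gad hI hM h1 h2 hp n hn (g := d.g0) hfB hfA
      (hfl ([Vx.q d.g0, Vx.u d.pa 0 d.z, Vx.u d.pb 0 d.y, Vx.p d.g0],
        Fc.G I.N d.pb d.pa d.g0 (0, true), Fc.G I.N d.pb d.pa d.g0 (d.y, true))
        (by simp [OpD.flats]))
      (hfl ([Vx.p d.g0, Vx.u d.pb d.i d.x, Vx.u d.pa d.z d.x, Vx.q d.g0],
        Fc.G I.N d.pb d.pa d.g0 (d.i, true), Fc.G I.N d.pb d.pa d.g0 (d.x, true))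
        (by simp [OpD.flats]))
      (NF.t0_free hI d hd _ (Or.inl rfl)) ?_ ?_ ?_ ?_ ?_ ?_ ?_ ?_ ?_ ?_ ?_ ?_ ?_ ?_ ?_ ?_ ?_ ?_
      ?_ ?_
    all_goals first
      | simp; done
      | (simp [Vx.u, Vx.b1, Vx.b2]; omega)
      | omega
  · refine gad hI hM h1 h2 hp n hn (g := d.g1) hfB hfC
      (hfl ([Vx.p d.g1, Vx.u d.pb d.y d.i, Vx.u d.pc d.y d.v, Vx.q d.g1],
        Fc.G I.N d.pb d.pc d.g1 (d.y, true), Fc.G I.N d.pb d.pc d.g1 (d.i, true))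
        (by simp [OpD.flats]))
      (hfl ([Vx.p d.g1, Vx.u d.pb d.x I.N, Vx.u d.pc d.v I.N, Vx.q d.g1],
        Fc.G I.N d.pb d.pc d.g1 (d.x, true), Fc.G I.N d.pb d.pc d.g1 (I.N, true))
        (by simp [OpD.flats]))
      (NF.t0_free hI d hd _ (Or.inr (Or.inl rfl))) ?_ ?_ ?_ ?_ ?_ ?_ ?_ ?_ ?_ ?_ ?_ ?_ ?_ ?_ ?_ ?_
      ?_ ?_ ?_ ?_
    all_goals first
      | simp; done
      | (simp [Vx.u, Vx.b1, Vx.b2]; omega)
      | omega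
  · refine gad hI hM h1 h2 hp n hn (g := d.g1) hfB hfC
      (hfl ([Vx.q d.g1, Vx.u d.pc 0 d.y, Vx.u d.pb 0 d.y, Vx.p d.g1],
        Fc.G I.N d.pb d.pc d.g1 (0, true), Fc.G I.N d.pb d.pc d.g1 (d.y, true))
        (by simp [OpD.flats]))
      (hfl ([Vx.p d.g1, Vx.u d.pb d.x I.N, Vx.u d.pc d.v I.N, Vx.q d.g1],
        Fc.G I.N d.pb d.pc d.g1 (d.x, true), Fc.G I.N d.pb d.pc d.g1 (I.N, true))
        (by simp [OpD.flats]))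
      (NF.t0_free hI d hd _ (Or.inr (Or.inl rfl))) ?_ ?_ ?_ ?_ ?_ ?_ ?_ ?_ ?_ ?_ ?_ ?_ ?_ ?_ ?_ ?_
      ?_ ?_ ?_ ?_
    all_goals first
      | simp; done
      | (simp [Vx.u, Vx.b1, Vx.b2]; omega)
      | omega
  · refine gad hI hM h1 h2 hp n hn (g := d.g2) hfC hfD
      (hfl ([Vx.p d.g2, Vx.u d.pc 0 d.y, Vx.u d.pd 0 d.w, Vx.q d.g2],
        Fc.G I.N d.pc d.pd d.g2 (0, true), Fc.G I.N d.pc d.pd d.g2 (d.y, true))
        (by simp [OpD.flats]))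
      (hfl ([Vx.q d.g2, Vx.u d.pd d.w I.N, Vx.u d.pc d.v I.N, Vx.p d.g2],
        Fc.G I.N d.pc d.pd d.g2 (d.v, true), Fc.G I.N d.pc d.pd d.g2 (I.N, true))
        (by simp [OpD.flats]))
      (NF.t0_free hI d hd _ (Or.inr (Or.inr rfl))) ?_ ?_ ?_ ?_ ?_ ?_ ?_ ?_ ?_ ?_ ?_ ?_ ?_ ?_ ?_ ?_
      ?_ ?_ ?_ ?_
    all_goals first
      | simp; done
      | (simp [Vx.u, Vx.b1, Vx.b2]; omega)
      | omega

end Pool.Agent.Helper66.G4
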